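import Pool.Agent.Q297.ProjAlg

/-!
# There is no universal countable projective algebra of plane sets

The definitions (`Plane`, the axes `AX` and `AY`, the projections `pr1` and `pr2`, the direct
product `dprod`, `IsProjAlg`, `IsIso`, `Isomorphic`, `gen`) are in `Pool/Agent/Q297/ProjAlg.lean`.

For `N ⊆ ℕ` let `SN N` consist of `(1, 0)`, of the points `(n + 1, n + 1)` and `(n + 1, n + 2)` for
`n ∈ ℕ`, and of the points `(0, n + 3)` for `n ∈ N`. There are operations `t_n`, composed of the
Boolean operations, the projections and the direct product and not depending on `N`, such that
`t_n (SN N)` is `SN N ∩ {(0, n + 3)}`. So, if `f` is an isomorphism of a projective algebra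
containing `SN N` onto a subalgebra of `U`, then `f (SN N) ∈ U` determines `N`. As there are
uncountably many sets `N`, no countable `U` contains copies of all the algebras generated by one
of the sets `SN N`.
-/

set_option autoImplicit false

namespace Pool.Agent.Results.MP_3db952_lc.NoUniversal

open Pool.Agent.Q297.ProjAlg

/-- For every countable projective algebra `U` of plane sets there is a plane set such that the
projective algebra generated by it, which is countable, is not isomorphic to any subalgebra of `U`.
So there is no universal countable projective algebra. -/
theorem result (U : Set (Set Plane)) (hU : U.Countable) (_ : IsProjAlg U) :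
    ∃ S : Fin 1 → Set Plane, IsProjAlg (gen S) ∧ (gen S).Countable ∧
      ∀ V, V ⊆ U → IsProjAlg V → ¬ Isomorphic (gen S) V := by
  obtain ⟨S, hS⟩ := no_universal hU
  exact ⟨S, gen_isProjAlg S, gen_countable S, fun V hV _ => hS V hV⟩

end Pool.Agent.Results.MP_3db952_lc.NoUniversal
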